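import Pool.Agent.V11298.KD.Sym
import Pool.Agent.Results.MP_6d896a_gt.Exchangeable
import Pool.Agent.Results.MP_6d896a_gt.Particles
import Pool.Agent.Results.MP_6d896a_gt.HierarchicallyExchangeable

/-!
# The classes of symmetric convex sets
-/

set_option autoImplicit false

namespace Pool.Agent.V11298.KD

open MeasureTheory Set ProbabilityTheory
open scoped ENNReal InnerProductSpace
open Pool.Agent.W695.KH
open Pool.Agent.Results.MP_6d896a_gt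

/-- a density invariant under the isometries of `D'` is invariant under the permutations of the coordinates
preserving `D'` -/
theorem perm_inv {ι : Type} [Fintype ι] {D' : Set (Eu ι)} {ρ : Eu ι → ℝ}
    (hρ : ∀ e : Eu ι ≃ₗᵢ[ℝ] Eu ι, (∀ x, e x ∈ D' ↔ x ∈ D') → ∀ x, ρ (e x) = ρ x)
    (ψ : Equiv.Perm ι) (h1 : ∀ x y : Eu ι, (∀ i, y i = x (ψ i)) → x ∈ D' → y ∈ D')
    (h2 : ∀ x y : Eu ι, (∀ i, y i = x (ψ⁻¹ i)) → x ∈ D' → y ∈ D') (x y : Eu ι) (hxy : ∀ i, y i = x (ψ i)) :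
    ρ y = ρ x := by
  set e : Eu ι ≃ₗᵢ[ℝ] Eu ι := LinearIsometryEquiv.piLpCongrLeft 2 ℝ ℝ ψ.symm with he
  have hei : ∀ z i, e z i = z (ψ i) := fun z i => by
    simp [he, LinearIsometryEquiv.piLpCongrLeft_apply, Equiv.piCongrLeft'_apply]
  have hy : e x = y := by
    ext i
    rw [hei, hxy]
  rw [← hy]
  refine hρ e (fun z => ?_) x
  constructor
  · intro hz
    refine h2 (e z) z (fun i => ?_) hz
    rw [hei]
    simp
  · intro hz
    exact h1 z (e z) (hei z) hz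

theorem sym_exch : ∃ C : ℝ, 0 < C ∧ ∀ n : ℕ, 1 ≤ n → ∀ D' : Set (Eu (Fin n)),
    (∀ σ : Equiv.Perm (Fin n), ∀ x y : Eu (Fin n), (∀ i, y i = x (σ i)) → x ∈ D' → y ∈ D') → SymKLS D' C := by
  obtain ⟨C, hC, H⟩ := Exchangeable.result
  refine ⟨C, hC, ?_⟩
  intro n hn D' hD' ρ hρ hp hinv s hs hcov f hf hf1
  refine (H n hn ρ ⟨hρ.nonneg, hρ.meas, hρ.logc, fun σ x y hxy => ?_⟩ (mu ρ) rfl hp s hs hcov f hf).1 hf1
  exact perm_inv hinv σ (hD' σ) (hD' σ⁻¹) x y hxy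

theorem sym_part : ∃ C : ℝ, 0 < C ∧ ∀ N d q : ℕ, 1 ≤ N → 1 ≤ d →
    ∀ b : Fin N → Fin q, Function.Surjective b → ∀ D' : Set (Eu (Fin N × Fin d)),
    (∀ σ : Equiv.Perm (Fin N), (∀ i, b (σ i) = b i) → ∀ x y : Eu (Fin N × Fin d),
      (∀ i α, y (i, α) = x (σ i, α)) → x ∈ D' → y ∈ D') →
    SymKLS D' (C * (q * (d : ℝ) ^ 4 * (1 + Real.log q) ^ 2)) := by
  obtain ⟨C, hC, H⟩ := Particles.result
  refine ⟨C, hC, ?_⟩
  intro N d q hN hd b hb D' hD' ρ hρ hp hinv s hs hcov f hf hf1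
  refine (H N d q hN hd b hb ρ ⟨hρ.nonneg, hρ.meas, hρ.logc, fun σ hσ x y hxy => ?_⟩ (mu ρ) rfl hp s hs hcov
    f hf).1 hf1
  have hσ' : ∀ i, b (σ⁻¹ i) = b i := fun i => by
    have := hσ (σ⁻¹ i)
    simpa using this.symm
  refine perm_inv hinv (Equiv.prodCongr σ (Equiv.refl _)) (fun x y h => hD' σ hσ x y fun i α => ?_)
    (fun x y h => hD' σ⁻¹ hσ' x y fun i α => ?_) x y fun i => ?_
  · exact h (i, α)
  · exact h (i, α)
  · exact hxy i.1 i.2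

theorem sym_tree : ∃ C : ℝ, 0 < C ∧ ∀ (k : ℕ) (m : Fin k → ℕ), 1 ≤ k → (∀ j, 1 ≤ m j) →
    ∀ D' : Set (HierarchicallyExchangeable.Arr m),
    (∀ ψ : Equiv.Perm (HierarchicallyExchangeable.Leaf m), HierarchicallyExchangeable.IsAut m ψ →
      ∀ x y : HierarchicallyExchangeable.Arr m, (∀ p, y p = x (ψ p)) → x ∈ D' → y ∈ D') →
    SymKLS D' (C ^ (k ^ 2) * HierarchicallyExchangeable.factor m) := by
  obtain ⟨C, hC, H⟩ := HierarchicallyExchangeable.result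
  refine ⟨C, hC, ?_⟩
  intro k m hk hm D' hD' ρ hρ hp hinv s hs hcov f hf hf1
  refine (H k m hk hm ρ ⟨hρ.nonneg, hρ.meas, hρ.logc, fun ψ hψ x y hxy => ?_⟩ (mu ρ) rfl hp s hs hcov
    f hf).1 hf1
  have hψ' : HierarchicallyExchangeable.IsAut m ψ⁻¹ := by
    intro l x y
    have := hψ l (ψ⁻¹ x) (ψ⁻¹ y)
    have e : ∀ z, ψ (ψ⁻¹ z) = z := fun z => by simp
    rw [e, e] at this
    exact this.symm
  exact perm_inv hinv ψ (hD' ψ hψ) (hD' ψ⁻¹ hψ') x y hxy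

end Pool.Agent.V11298.KD
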