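import Pool.Agent.H212R2.KLS.T1

/-!
# Measures dominated by a multiple of a log-concave measure: transfer of covariance and variance bounds
-/

set_option autoImplicit false

namespace Pool.Agent.V11298.KD

open MeasureTheory Set ProbabilityTheory
open scoped ENNReal InnerProductSpace

variable {ι : Type} [Fintype ι]

/-- log-concave density -/
structure LC (ρ : EuclideanSpace ℝ ι → ℝ) : Prop where
  nonneg : ∀ x, 0 ≤ ρ x
  meas : Measurable ρ
  logc : ∀ x y, ∀ t : ℝ, 0 < t → t < 1 → ρ x ^ (1 - t) * ρ y ^ t ≤ ρ ((1 - t) • x + t • y)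

/-- `μ` with density `ρ` -/
noncomputable def mu (ρ : EuclideanSpace ℝ ι → ℝ) : Measure (EuclideanSpace ℝ ι) :=
  volume.withDensity fun x => ENNReal.ofReal (ρ x)

theorem mu_apply (ρ : EuclideanSpace ℝ ι → ℝ) (S : Set (EuclideanSpace ℝ ι)) (hS : MeasurableSet S) :
    mu ρ S = ∫⁻ x, S.indicator (fun x => ENNReal.ofReal (ρ x)) x := by
  unfold mu
  rw [withDensity_apply _ hS, lintegral_indicator hS]

theorem pl {ρ : EuclideanSpace ℝ ι → ℝ} (h : LC ρ)
    (e : EuclideanSpace ℝ ι) (a b t : ℝ) (ht0 : 0 < t) (ht1 : t < 1) :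
    mu ρ {x | a ≤ ⟪e, x⟫_ℝ} ^ (1 - t) * mu ρ {x | b ≤ ⟪e, x⟫_ℝ} ^ t ≤
      mu ρ {x | (1 - t) * a + t * b ≤ ⟪e, x⟫_ℝ} := by
  have hms : ∀ v : ℝ, MeasurableSet {x : EuclideanSpace ℝ ι | v ≤ ⟪e, x⟫_ℝ} := fun v =>
    measurableSet_le measurable_const (by fun_prop)
  rw [mu_apply ρ _ (hms a), mu_apply ρ _ (hms b), mu_apply ρ _ (hms _)]
  have t1 : 0 < 1 - t := by linarith
  refine Pool.Agent.H212R2.KLS.PL volume t ht0 ht1 _ _ _
    ((h.meas.ennreal_ofReal).indicator (hms a)) ((h.meas.ennreal_ofReal).indicator (hms b))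
    ((h.meas.ennreal_ofReal).indicator (hms _)) ?_
  intro x y
  by_cases hx : x ∈ {x : EuclideanSpace ℝ ι | a ≤ ⟪e, x⟫_ℝ}
  · by_cases hy : y ∈ {x : EuclideanSpace ℝ ι | b ≤ ⟪e, x⟫_ℝ}
    · have hxy : (1 - t) • x + t • y ∈ {x : EuclideanSpace ℝ ι | (1 - t) * a + t * b ≤ ⟪e, x⟫_ℝ} := by
        simp only [mem_ofPred_eq] at hx hy ⊢
        rw [inner_add_right, inner_smul_right, inner_smul_right]
        nlinarith
      rw [indicator_of_mem hx, indicator_of_mem hy, indicator_of_mem hxy,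
        ENNReal.ofReal_rpow_of_nonneg (h.nonneg x) t1.le, ENNReal.ofReal_rpow_of_nonneg (h.nonneg y) ht0.le,
        ← ENNReal.ofReal_mul (Real.rpow_nonneg (h.nonneg x) _)]
      exact ENNReal.ofReal_le_ofReal (h.logc x y t ht0 ht1)
    · rw [indicator_of_notMem hy, ENNReal.zero_rpow_of_pos ht0, mul_zero]
      exact zero_le
  · rw [indicator_of_notMem hx, ENNReal.zero_rpow_of_pos t1, zero_mul]
    exact zero_le

/-- A slab of measure at least `p` and half width `r` gives exponential tails on the scale `r / p`. -/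
theorem one_side {ρ : EuclideanSpace ℝ ι → ℝ} (h : LC ρ) (h1 : IsProbabilityMeasure (mu ρ))
    (e : EuclideanSpace ℝ ι) (a r p : ℝ) (hr : 0 < r) (hp : 0 < p)
    (hslab : p ≤ (mu ρ).real {x | a - r ≤ ⟪e, x⟫_ℝ ∧ ⟪e, x⟫_ℝ < a + r}) (u : ℝ) (hu : r < u) :
    (mu ρ).real {x | a + u ≤ ⟪e, x⟫_ℝ} ≤ Real.exp (-(p * u / (2 * r))) := by
  have hms : ∀ v : ℝ, MeasurableSet {x : EuclideanSpace ℝ ι | v ≤ ⟪e, x⟫_ℝ} := fun v =>
    measurableSet_le measurable_const (by fun_prop)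
  set G : ℝ → ℝ := fun v => (mu ρ).real {x | v ≤ ⟪e, x⟫_ℝ} with hG
  have hsplit : G (a - r) = (mu ρ).real {x | a - r ≤ ⟪e, x⟫_ℝ ∧ ⟪e, x⟫_ℝ < a + r} + G (a + r) := by
    have h2 : {x : EuclideanSpace ℝ ι | a - r ≤ ⟪e, x⟫_ℝ} =
        {x | a - r ≤ ⟪e, x⟫_ℝ ∧ ⟪e, x⟫_ℝ < a + r} ∪ {x | a + r ≤ ⟪e, x⟫_ℝ} := by
      ext x
      simp only [mem_ofPred_eq, mem_union]
      constructor
      · intro hx
        by_cases hc : ⟪e, x⟫_ℝ < a + r
        · exact Or.inl ⟨hx, hc⟩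
        · exact Or.inr (not_lt.1 hc)
      · rintro (hx | hx)
        · exact hx.1
        · linarith
    simp only [hG]
    rw [h2, measureReal_union _ (hms _)]
    rw [Set.disjoint_left]
    intro x hx1 hx2
    simp only [mem_ofPred_eq] at hx1 hx2
    linarith [hx1.2]
  have hG1 : G (a - r) ≤ 1 := measureReal_le_one
  have hG0 : ∀ v, 0 ≤ G v := fun v => measureReal_nonneg
  have hg0 : 0 < G (a - r) := by
    rw [hsplit]
    have := hG0 (a + r)
    linarith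
  set t : ℝ := 2 * r / (u + r) with ht
  have hur : 0 < u + r := by linarith
  have ht0 : 0 < t := by positivity
  have ht1 : t < 1 := by rw [ht, div_lt_one hur]; linarith
  have htb : t * (u + r) = 2 * r := by rw [ht]; exact div_mul_cancel₀ _ hur.ne'
  have hpl := pl h e (a - r) (a + u) t ht0 ht1
  have hmid : (1 - t) * (a - r) + t * (a + u) = a + r := by
    have : (1 - t) * (a - r) + t * (a + u) = a - r + t * (u + r) := by ring
    rw [this, htb]; ring
  rw [hmid] at hpl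
  have hplr : G (a - r) ^ (1 - t) * G (a + u) ^ t ≤ G (a + r) := by
    have := ENNReal.toReal_mono (measure_ne_top _ _) hpl
    rw [ENNReal.toReal_mul, ← ENNReal.toReal_rpow, ← ENNReal.toReal_rpow] at this
    exact this
  have h3 : G (a + r) ≤ (1 - p) * G (a - r) := by
    have h4 : p * G (a - r) ≤ p := by nlinarith
    have h5 : G (a + r) ≤ G (a - r) - p := by rw [hsplit]; linarith
    linarith
  show G (a + u) ≤ _
  rcases (hG0 (a + u)).eq_or_lt with hz | hpos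
  · rw [← hz]; exact (Real.exp_pos _).le
  have h6 : G (a - r) ^ (1 - t) * G (a + u) ^ t ≤ (1 - p) * G (a - r) := hplr.trans h3
  have h7 : 0 < G (a - r) ^ (1 - t) * G (a + u) ^ t := by positivity
  have h8 : 0 < 1 - p := by
    have : 0 < (1 - p) * G (a - r) := lt_of_lt_of_le h7 h6
    exact (pos_iff_pos_of_mul_pos this).2 hg0
  have h9 := Real.log_le_log h7 h6
  rw [Real.log_mul (by positivity) (by positivity), Real.log_rpow hg0, Real.log_rpow hpos,
    Real.log_mul h8.ne' hg0.ne'] at h9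
  have h10 : Real.log (1 - p) ≤ -p := by
    have := Real.log_le_sub_one_of_pos h8
    linarith
  have h11 : Real.log (G (a - r)) ≤ 0 := Real.log_nonpos hg0.le hG1
  have h12 : t * Real.log (G (a + u)) ≤ -p := by nlinarith
  have h13 : Real.log (G (a + u)) ≤ -(p * u / (2 * r)) := by
    have h14 : p * u / (2 * r) ≤ p / t := by
      rw [div_le_div_iff₀ (by positivity) ht0]
      have : t * u ≤ 2 * r := by nlinarith
      nlinarith
    have h15 : Real.log (G (a + u)) ≤ -(p / t) := by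
      have h16 : t * (p / t) = p := by field_simp
      by_contra hcon
      push Not at hcon
      have := mul_lt_mul_of_pos_left hcon ht0
      linarith
    linarith
  calc G (a + u) = Real.exp (Real.log (G (a + u))) := (Real.exp_log hpos).symm
    _ ≤ _ := Real.exp_le_exp.2 h13

theorem two_side {ρ : EuclideanSpace ℝ ι → ℝ} (h : LC ρ) (h1 : IsProbabilityMeasure (mu ρ))
    (e : EuclideanSpace ℝ ι) (a r p : ℝ) (hr : 0 < r) (hp : 0 < p)
    (hslab : p ≤ (mu ρ).real {x | |⟪e, x⟫_ℝ - a| < r}) (u : ℝ) :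
    mu ρ {x | u ≤ |⟪e, x⟫_ℝ - a|} ≤ 2 * ENNReal.ofReal (Real.exp (-(p * u / (2 * r)))) := by
  have hp1 : p ≤ 1 := hslab.trans measureReal_le_one
  rcases le_or_gt u r with hle | hgt
  · have h2 : (1 / 2 : ℝ) ≤ Real.exp (-(p * u / (2 * r))) := by
      have h3 : p * u / (2 * r) ≤ 1 / 2 := by
        rw [div_le_div_iff₀ (by positivity) (by norm_num)]
        nlinarith
      have := Real.add_one_le_exp (-(p * u / (2 * r)))
      linarith
    calc mu ρ {x | u ≤ |⟪e, x⟫_ℝ - a|} ≤ 1 := prob_le_one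
      _ = 2 * ENNReal.ofReal (1 / 2) := by
          rw [← ENNReal.ofReal_ofNat 2, ← ENNReal.ofReal_mul (by norm_num)]; norm_num
      _ ≤ _ := by gcongr
  · have hA := one_side h h1 e a r p hr hp (hslab.trans (measureReal_mono (by
      intro x hx
      simp only [mem_ofPred_eq, abs_lt] at hx ⊢
      constructor <;> linarith [hx.1, hx.2]))) u hgt
    have hslab' : p ≤ (mu ρ).real {x | -a - r ≤ ⟪-e, x⟫_ℝ ∧ ⟪-e, x⟫_ℝ < -a + r} := by
      refine hslab.trans (measureReal_mono ?_)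
      intro x hx
      simp only [mem_ofPred_eq, abs_lt, inner_neg_left] at hx ⊢
      constructor <;> linarith [hx.1, hx.2]
    have hB := one_side h h1 (-e) (-a) r p hr hp hslab' u hgt
    have hA' : mu ρ {x | a + u ≤ ⟪e, x⟫_ℝ} ≤ ENNReal.ofReal (Real.exp (-(p * u / (2 * r)))) := by
      rw [← ENNReal.ofReal_toReal (measure_ne_top (mu ρ) {x | a + u ≤ ⟪e, x⟫_ℝ})]
      exact ENNReal.ofReal_le_ofReal hA
    have hB' : mu ρ {x | -a + u ≤ ⟪-e, x⟫_ℝ} ≤ ENNReal.ofReal (Real.exp (-(p * u / (2 * r)))) := by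
      rw [← ENNReal.ofReal_toReal (measure_ne_top (mu ρ) {x | -a + u ≤ ⟪-e, x⟫_ℝ})]
      exact ENNReal.ofReal_le_ofReal hB
    calc mu ρ {x | u ≤ |⟪e, x⟫_ℝ - a|} ≤ mu ρ ({x | a + u ≤ ⟪e, x⟫_ℝ} ∪ {x | -a + u ≤ ⟪-e, x⟫_ℝ}) := by
          refine measure_mono ?_
          intro x hx
          simp only [mem_ofPred_eq, mem_union, inner_neg_left] at hx ⊢
          rcases le_abs.1 hx with h5 | h5
          · left; linarith
          · right; linarith
      _ ≤ _ := measure_union_le _ _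
      _ ≤ _ := by rw [two_mul]; exact add_le_add hA' hB'

/-- Second moment from exponential tails. -/
theorem second_moment {Ω : Type*} [MeasurableSpace Ω] (μ : Measure Ω) (f : Ω → ℝ) (hf : Measurable f)
    (h0 : ∀ x, 0 ≤ f x) (b : ℝ) (hb : 0 < b)
    (htail : ∀ u : ℝ, 0 < u → μ {x | u ≤ f x} ≤ 2 * ENNReal.ofReal (Real.exp (-(u / b)))) :
    ∫⁻ x, ENNReal.ofReal (f x ^ 2) ∂μ ≤ ENNReal.ofReal (4 * b ^ 2) := by
  have h1 := lintegral_rpow_eq_lintegral_meas_le_mul μ (f := f) (Filter.Eventually.of_forall h0)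
    hf.aemeasurable (p := 2) two_pos
  have e1 : ∀ x, f x ^ (2 : ℝ) = f x ^ 2 := fun x => by norm_num
  simp only [e1] at h1
  rw [h1]
  have hint : IntegrableOn (fun t : ℝ => t ^ ((2 : ℝ) - 1) * Real.exp (-((1 / b) * t))) (Ioi 0) := by
    by_contra hcon
    have h2 := Real.integral_rpow_mul_exp_neg_mul_Ioi (a := 2) (r := 1 / b) two_pos (by positivity)
    rw [MeasureTheory.integral_undef hcon] at h2
    have h3 : 0 < (1 / (1 / b)) ^ (2 : ℝ) * Real.Gamma 2 := by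
      have : 0 < Real.Gamma 2 := Real.Gamma_pos_of_pos two_pos
      positivity
    linarith
  have h2 : ∫⁻ t in Ioi (0 : ℝ), μ {a | t ≤ f a} * ENNReal.ofReal (t ^ ((2 : ℝ) - 1)) ≤
      2 * ENNReal.ofReal (b ^ 2) := by
    calc ∫⁻ t in Ioi (0 : ℝ), μ {a | t ≤ f a} * ENNReal.ofReal (t ^ ((2 : ℝ) - 1))
        ≤ ∫⁻ t in Ioi (0 : ℝ), 2 * ENNReal.ofReal (t ^ ((2 : ℝ) - 1) * Real.exp (-((1 / b) * t))) := by
          apply setLIntegral_mono' measurableSet_Ioi
          intro t ht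
          have ht0 : 0 < t := ht
          calc μ {a | t ≤ f a} * ENNReal.ofReal (t ^ ((2 : ℝ) - 1))
              ≤ (2 * ENNReal.ofReal (Real.exp (-(t / b)))) * ENNReal.ofReal (t ^ ((2 : ℝ) - 1)) := by
                gcongr
                exact htail t ht0
            _ = 2 * ENNReal.ofReal (t ^ ((2 : ℝ) - 1) * Real.exp (-((1 / b) * t))) := by
                rw [mul_assoc, mul_comm (ENNReal.ofReal (Real.exp _)),
                  ← ENNReal.ofReal_mul (by positivity)]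
                congr 5
                ring
      _ = 2 * ∫⁻ t in Ioi (0 : ℝ), ENNReal.ofReal (t ^ ((2 : ℝ) - 1) * Real.exp (-((1 / b) * t))) := by
          rw [lintegral_const_mul' _ _ (by norm_num)]
      _ = 2 * ENNReal.ofReal (b ^ 2) := by
          congr 1
          rw [← ofReal_integral_eq_lintegral_ofReal hint]
          · congr 1
            rw [Real.integral_rpow_mul_exp_neg_mul_Ioi two_pos (by positivity)]
            have hG : Real.Gamma 2 = 1 := Real.Gamma_two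
            rw [hG]
            norm_num
          · refine (ae_restrict_iff' measurableSet_Ioi).2 (Filter.Eventually.of_forall fun t ht => ?_)
            have ht0 : 0 < t := ht
            positivity
  calc ENNReal.ofReal 2 * ∫⁻ t in Ioi (0 : ℝ), μ {a | t ≤ f a} * ENNReal.ofReal (t ^ ((2 : ℝ) - 1))
      ≤ ENNReal.ofReal 2 * (2 * ENNReal.ofReal (b ^ 2)) := by gcongr
    _ = ENNReal.ofReal (4 * b ^ 2) := by
        have e2 : (2 : ℝ≥0∞) = ENNReal.ofReal 2 := by norm_num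
        rw [e2, ← ENNReal.ofReal_mul (by norm_num), ← ENNReal.ofReal_mul (by norm_num)]
        congr 1
        ring

/-- `Var ⟪θ, X⟫ ≤ s ‖θ‖²` for all `θ` -/
def CovLe (μ : Measure (EuclideanSpace ℝ ι)) (s : ℝ) : Prop :=
  ∀ θ : EuclideanSpace ℝ ι, evariance (fun x => ⟪θ, x⟫_ℝ) μ ≤ ENNReal.ofReal (s * ‖θ‖ ^ 2)

/-- `ν A ≤ M μ A` for all measurable `A` -/
def Dom (ν μ : Measure (EuclideanSpace ℝ ι)) (M : ℝ) : Prop :=
  ∀ A : Set (EuclideanSpace ℝ ι), MeasurableSet A → ν A ≤ ENNReal.ofReal M * μ A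

omit [Fintype ι] in
theorem Dom.le {ν μ : Measure (EuclideanSpace ℝ ι)} {M : ℝ} (h : Dom ν μ M) :
    ν ≤ ENNReal.ofReal M • μ := by
  rw [Measure.le_iff]
  intro A hA
  rw [Measure.smul_apply, smul_eq_mul]
  exact h A hA

theorem evar_le {Ω : Type*} [MeasurableSpace Ω] {μ : Measure Ω} [IsProbabilityMeasure μ] {f : Ω → ℝ}
    (hf : Measurable f) (a : ℝ) {B : ℝ} (hB : 0 ≤ B)
    (h : ∫⁻ x, ENNReal.ofReal ((f x - a) ^ 2) ∂μ ≤ ENNReal.ofReal B) :
    MemLp f 2 μ ∧ evariance f μ ≤ ENNReal.ofReal B := by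
  have hg : Measurable fun x => f x - a := hf.sub_const a
  have h1 : MemLp (fun x => f x - a) 2 μ := by
    refine (memLp_two_iff_integrable_sq hg.aestronglyMeasurable).2 ?_
    refine ⟨(hg.pow_const 2).aestronglyMeasurable, ?_⟩
    rw [hasFiniteIntegral_iff_ofReal (Filter.Eventually.of_forall fun x => sq_nonneg _)]
    exact lt_of_le_of_lt h ENNReal.ofReal_lt_top
  have h2 : MemLp f 2 μ := by
    have := h1.add (memLp_const a)
    refine (memLp_congr_ae (Filter.Eventually.of_forall fun x => ?_)).1 this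
    simp
  refine ⟨h2, ?_⟩
  rw [← h2.ofReal_variance_eq]
  apply ENNReal.ofReal_le_ofReal
  have h3 : Var[f; μ] = Var[fun x => f x - a; μ] := by
    rw [variance_sub_const hf.aestronglyMeasurable]
  rw [h3]
  refine (variance_le_expectation_sq hg.aestronglyMeasurable).trans ?_
  have h4 : Integrable (fun x => (f x - a) ^ 2) μ := h1.integrable_sq
  have h5 : ENNReal.ofReal (∫ x, (f x - a) ^ 2 ∂μ) ≤ ENNReal.ofReal B := by
    rw [ofReal_integral_eq_lintegral_ofReal h4 (Filter.Eventually.of_forall fun x => sq_nonneg _)]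
    exact h
  exact (ENNReal.ofReal_le_ofReal_iff hB).1 h5

/-- **Covariance.** -/
theorem cov_transfer {ρ : EuclideanSpace ℝ ι → ℝ} (h : LC ρ) (h1 : IsProbabilityMeasure (mu ρ))
    (ν : Measure (EuclideanSpace ℝ ι)) [IsProbabilityMeasure ν] {M s : ℝ} (hM : 1 ≤ M) (hs : 0 < s)
    (hd : Dom ν (mu ρ) M) (hcov : CovLe ν s) : CovLe (mu ρ) (114 * M ^ 2 * s) := by
  intro θ
  by_cases hθ : θ = 0
  · subst hθ
    simp [evariance]
  have hθn : 0 < ‖θ‖ := norm_pos_iff.2 hθ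
  have hZm : Measurable fun x : EuclideanSpace ℝ ι => ⟪θ, x⟫_ℝ := by fun_prop
  have hZ : MemLp (fun x => ⟪θ, x⟫_ℝ) 2 ν :=
    (evariance_lt_top_iff_memLp hZm.aestronglyMeasurable).1 (lt_of_le_of_lt (hcov θ) ENNReal.ofReal_lt_top)
  set a := ν[fun x => ⟪θ, x⟫_ℝ] with ha
  set r := 2 * Real.sqrt s * ‖θ‖ with hr
  have hsq : 0 < Real.sqrt s := Real.sqrt_pos.2 hs
  have hr0 : 0 < r := by positivity
  have hvar : Var[fun x => ⟪θ, x⟫_ℝ; ν] ≤ s * ‖θ‖ ^ 2 := by
    have h2 := hcov θ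
    rw [← hZ.ofReal_variance_eq] at h2
    exact (ENNReal.ofReal_le_ofReal_iff (by positivity)).1 h2
  have hch := meas_ge_le_variance_div_sq hZ hr0
  have hr2 : r ^ 2 = 4 * (s * ‖θ‖ ^ 2) := by
    rw [hr, mul_pow, mul_pow, Real.sq_sqrt hs.le]; ring
  have hq : Var[fun x => ⟪θ, x⟫_ℝ; ν] / r ^ 2 ≤ 1 / 4 := by
    rw [hr2, div_le_div_iff₀ (by positivity) (by norm_num)]
    linarith
  have hms : MeasurableSet {x : EuclideanSpace ℝ ι | |⟪θ, x⟫_ℝ - a| < r} :=
    measurableSet_lt (by fun_prop) measurable_const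
  have hcomp : {x : EuclideanSpace ℝ ι | |⟪θ, x⟫_ℝ - a| < r}ᶜ = {x | r ≤ |⟪θ, x⟫_ℝ - a|} := by
    ext x; simp
  have hν : (3 / 4 : ℝ) ≤ ν.real {x | |⟪θ, x⟫_ℝ - a| < r} := by
    have h3 : ν.real {x | |⟪θ, x⟫_ℝ - a| < r}ᶜ ≤ 1 / 4 := by
      rw [hcomp, Measure.real]
      refine (ENNReal.toReal_mono ENNReal.ofReal_ne_top hch).trans ?_
      rw [ENNReal.toReal_ofReal (div_nonneg (variance_nonneg _ _) (sq_nonneg _))]
      exact hq
    rw [probReal_compl_eq_one_sub hms] at h3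
    linarith
  have hM0 : 0 < M := by linarith
  have hμ : 3 / (4 * M) ≤ (mu ρ).real {x | |⟪θ, x⟫_ℝ - a| < r} := by
    have h3 := hd _ hms
    have h4 : ν.real {x | |⟪θ, x⟫_ℝ - a| < r} ≤ M * (mu ρ).real {x | |⟪θ, x⟫_ℝ - a| < r} := by
      unfold Measure.real
      refine (ENNReal.toReal_mono (ENNReal.mul_ne_top ENNReal.ofReal_ne_top (measure_ne_top _ _)) h3).trans ?_
      rw [ENNReal.toReal_mul, ENNReal.toReal_ofReal hM0.le]
    rw [div_le_iff₀ (by positivity)]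
    nlinarith
  have htail := two_side h h1 θ a r (3 / (4 * M)) hr0 (by positivity) hμ
  set b := 8 * M * r / 3 with hb
  have hb0 : 0 < b := by positivity
  have hsm := second_moment (mu ρ) (fun x => |⟪θ, x⟫_ℝ - a|) (by fun_prop) (fun x => abs_nonneg _) b hb0
    (by
      intro u _
      refine (htail u).trans (le_of_eq ?_)
      congr 4
      rw [hb]
      field_simp
      ring)
  have h5 : ∫⁻ x, ENNReal.ofReal ((⟪θ, x⟫_ℝ - a) ^ 2) ∂(mu ρ) ≤ ENNReal.ofReal (114 * M ^ 2 * s * ‖θ‖ ^ 2) := by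
    have e3 : ∀ x, ENNReal.ofReal ((⟪θ, x⟫_ℝ - a) ^ 2) = ENNReal.ofReal (|⟪θ, x⟫_ℝ - a| ^ 2) := fun x => by
      rw [sq_abs]
    simp only [e3]
    refine hsm.trans (ENNReal.ofReal_le_ofReal ?_)
    have e4 : 4 * b ^ 2 = 4 * (64 / 9) * M ^ 2 * r ^ 2 := by rw [hb]; ring
    rw [e4, hr2]
    have : 0 ≤ M ^ 2 * (s * ‖θ‖ ^ 2) := by positivity
    nlinarith
  exact (evar_le (μ := mu ρ) hZm a (by positivity) h5).2

/-- **Variance.** -/
theorem var_transfer (μ ν : Measure (EuclideanSpace ℝ ι)) [IsProbabilityMeasure μ] [IsProbabilityMeasure ν] {M : ℝ}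
    (hM : 1 ≤ M) (hd : Dom ν μ M) {f : EuclideanSpace ℝ ι → ℝ} (hfm : Measurable f) (hf : MemLp f 2 μ) :
    MemLp f 2 ν ∧ Var[f; ν] ≤ M * Var[f; μ] := by
  have hM0 : 0 < M := by linarith
  set a := μ[f] with ha
  have h1 : ∫⁻ x, ENNReal.ofReal ((f x - a) ^ 2) ∂ν ≤ ENNReal.ofReal (M * Var[f; μ]) := by
    calc ∫⁻ x, ENNReal.ofReal ((f x - a) ^ 2) ∂ν
        ≤ ∫⁻ x, ENNReal.ofReal ((f x - a) ^ 2) ∂(ENNReal.ofReal M • μ) := lintegral_mono' hd.le le_rfl
      _ = ENNReal.ofReal M * ∫⁻ x, ENNReal.ofReal ((f x - a) ^ 2) ∂μ := by rw [lintegral_smul_measure]; rfl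
      _ = ENNReal.ofReal M * evariance f μ := by rw [evariance_eq_lintegral_ofReal]
      _ = ENNReal.ofReal (M * Var[f; μ]) := by
          rw [← hf.ofReal_variance_eq, ← ENNReal.ofReal_mul hM0.le]
  obtain ⟨h2, h3⟩ := evar_le (μ := ν) hfm a (mul_nonneg hM0.le (variance_nonneg _ _)) h1
  refine ⟨h2, ?_⟩
  rw [← h2.ofReal_variance_eq] at h3
  exact (ENNReal.ofReal_le_ofReal_iff (mul_nonneg hM0.le (variance_nonneg _ _))).1 h3

/-- **Transfer.** If all `1`-Lipschitz functions have variance at most `κ s` for `μ` whenever `Cov μ ≤ s`, then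
they have variance at most `114 κ M³ s` for `ν` whenever `Cov ν ≤ s`. -/
theorem transfer {ρ : EuclideanSpace ℝ ι → ℝ} (h : LC ρ) (h1 : IsProbabilityMeasure (mu ρ)) {κ : ℝ}
    (hκ : ∀ s : ℝ, 0 < s → CovLe (mu ρ) s → ∀ f : EuclideanSpace ℝ ι → ℝ, ContDiff ℝ 1 f →
      (∀ x, ‖fderiv ℝ f x‖ ≤ 1) → MemLp f 2 (mu ρ) ∧ Var[f; mu ρ] ≤ κ * s)
    (ν : Measure (EuclideanSpace ℝ ι)) [IsProbabilityMeasure ν] {M : ℝ} (hM : 1 ≤ M)
    (hd : Dom ν (mu ρ) M) {s : ℝ} (hs : 0 < s) (hcov : CovLe ν s) {f : EuclideanSpace ℝ ι → ℝ}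
    (hf : ContDiff ℝ 1 f) (hf1 : ∀ x, ‖fderiv ℝ f x‖ ≤ 1) :
    MemLp f 2 ν ∧ Var[f; ν] ≤ 114 * κ * M ^ 3 * s := by
  have hM0 : 0 < M := by linarith
  obtain ⟨h2, h3⟩ := hκ (114 * M ^ 2 * s) (by positivity) (cov_transfer h h1 ν hM hs hd hcov) f hf hf1
  obtain ⟨h4, h5⟩ := var_transfer (mu ρ) ν hM hd hf.continuous.measurable h2
  refine ⟨h4, h5.trans ?_⟩
  calc M * Var[f; mu ρ] ≤ M * (κ * (114 * M ^ 2 * s)) := mul_le_mul_of_nonneg_left h3 hM0.le
    _ = 114 * κ * M ^ 3 * s := by ring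

end Pool.Agent.V11298.KD
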