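import Pool.Agent.V11298.KD.Core
import Pool.Agent.V11298.KD.Dom
import Pool.Agent.W695.KH.Final
import Pool.Agent.W695.KH.Wrap2
import Pool.Agent.W695.KH.Mink2

/-!
# Convex bodies inside symmetric convex bodies: Cheeger and hyperplane forms
-/

set_option autoImplicit false

namespace Pool.Agent.V11298.KD

open MeasureTheory Set Filter Topology ProbabilityTheory
open scoped ENNReal InnerProductSpace Pointwise
open Pool.Agent.W695.KH

variable {κ : Type} [Fintype κ]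

theorem lv_body (D : Set (Eu κ)) (hD : IsCompact D) (hconv : Convex ℝ D) (hvol : 0 < volume D) {K : ℝ}
    (hK : 0 < K) (hW : ∀ᶠ A in atTop, LV (Uu D A) K) (f : Eu κ → ℝ) (L M : ℝ) (hf : Sm f L M)
    (hfb : ∀ x, |f x| ≤ 1 / 2) :
    VV D f ^ 3 ≤ 16 * K * (EV D fun x => ‖fderiv ℝ f x‖) ^ 2 := by
  have hne : D.Nonempty := by
    by_contra h
    rw [not_nonempty_iff_eq_empty] at h
    rw [h] at hvol
    simp at hvol
  have hcont : Continuous f := hf.diff.continuous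
  have hL : 0 ≤ L := (norm_nonneg _).trans (hf.grad 0)
  have hgc : Continuous fun x => ‖fderiv ℝ f x‖ :=
    (hf.diff.continuous_fderiv one_ne_zero).norm
  have ht1 := lim κ D hD hconv hvol f 1 hcont (fun x => by
    have := hf.bdd x
    nlinarith [sq_nonneg ‖x‖])
  have ht2 := lim κ D hD hconv hvol (fun x => f x ^ 2) 1 (hcont.pow 2) (fun x => by
    have h1 := hf.bdd x
    have h2 : |f x ^ 2| ≤ 1 := by
      rw [abs_pow]
      exact pow_le_one₀ (abs_nonneg _) h1
    nlinarith [sq_nonneg ‖x‖])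
  have ht3 := lim κ D hD hconv hvol (fun x => ‖fderiv ℝ f x‖) L hgc (fun x => by
    have h1 := hf.grad x
    rw [abs_norm]
    nlinarith [sq_nonneg ‖x‖, mul_nonneg hL (sq_nonneg ‖x‖)])
  have hv : Tendsto (fun A : ℝ => (EU (Uu D A) (fun x => f x ^ 2) - EU (Uu D A) f ^ 2) ^ 3) atTop
      (𝓝 (VV D f ^ 3)) := (ht2.sub (ht1.pow 2)).pow 3
  have hr : Tendsto (fun A : ℝ => 16 * K * (EU (Uu D A) fun x => ‖fderiv ℝ f x‖) ^ 2) atTop
      (𝓝 (16 * K * (EV D fun x => ‖fderiv ℝ f x‖) ^ 2)) := (ht3.pow 2).const_mul _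
  refine le_of_tendsto_of_tendsto hv hr ?_
  filter_upwards [hW, eventually_gt_atTop 0] with A hA1 hA3
  obtain ⟨⟨b, hb⟩, hA4, _⟩ := proj κ D hD hconv hne A hA3
  obtain ⟨m, hm⟩ : ∃ m, m = EU (Uu D A) f := ⟨_, rfl⟩
  have hmb : |m| ≤ 1 / 2 := hm ▸ Pool.Agent.W880.KH.EU_le (Uu D A) hA4 f hcont (1 / 2) hfb
  have hfd : ∀ x, fderiv ℝ (fun y => f y - m) x = fderiv ℝ f x := by
    intro x
    rw [fderiv_sub_const]
  have hS : Sm (fun x => f x - m) L M := by
    refine ⟨?_, hf.diff.sub contDiff_const, ?_, ?_⟩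
    · intro x
      have h1 := hfb x
      have h2 : |f x - m| ≤ |f x| + |m| := abs_sub _ _
      linarith
    · intro x
      rw [hfd]
      exact hf.grad x
    · intro x y
      rw [hfd, hfd]
      exact hf.lip x y
  have h1 : EU (Uu D A) (fun x => f x - m) = 0 := by
    rw [Pool.Agent.W880.KH.EU_sub_const (Uu D A) hA4 f hcont (1 / 2) hfb m, hm, sub_self]
  have h2 : EU (Uu D A) (fun x => (f x - m) ^ 2) =
      EU (Uu D A) (fun x => f x ^ 2) - EU (Uu D A) f ^ 2 := by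
    rw [Pool.Agent.W880.KH.EU_sub_sq (Uu D A) hA4 f hcont (1 / 2) hfb m, ← hm]
    ring
  have h3 := lv_core grad iter gen (Uu D A) b A hb hK hA1 (fun x => f x - m) L M hS h1
  rw [h2] at h3
  simp only [hfd] at h3
  exact h3

theorem VV_le_one (D : Set (Eu κ)) (hcp : IsCompact D) (hvol : 0 < volume D) (f : Eu κ → ℝ) {L M : ℝ}
    (hf : Sm f L M) (hf2 : ∀ x, |f x| ≤ 1 / 2) : VV D f ≤ 1 := by
  have hfin : volume D ≠ ⊤ := hcp.measure_lt_top.ne
  have hvr : 0 < (volume D).toReal := ENNReal.toReal_pos hvol.ne' hfin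
  have h3 : EV D (fun x => f x ^ 2) ≤ 1 := by
    unfold EV
    rw [div_le_one hvr]
    calc ∫ x in D, f x ^ 2 ≤ ∫ x in D, (1 : ℝ) := by
          refine setIntegral_mono_on ?_ ?_ hcp.measurableSet ?_
          · exact (hf.diff.continuous.pow 2).continuousOn.integrableOn_compact hcp
          · exact integrableOn_const hfin
          · intro x _
            rw [← sq_abs]
            exact pow_le_one₀ (abs_nonneg _) ((hf2 x).trans (by norm_num))
      _ = (volume D).toReal := by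
          rw [setIntegral_const, smul_eq_mul, mul_one, measureReal_def]
  unfold VV
  nlinarith [sq_nonneg (EV D f)]

/-- the two forms of the inequality for functions of large variance -/
theorem fun_bound (D : Set (Eu κ)) (hD : IsCompact D) (hconv : Convex ℝ D) (hvol : 0 < volume D) {K : ℝ}
    (hK : 0 < K) (hW : ∀ᶠ A in atTop, LV (Uu D A) K) (f : Eu κ → ℝ) (L M : ℝ) (hf : Sm f L M)
    (hfb : ∀ x, |f x| ≤ 1 / 2) (h5 : 1 / 5 < VV D f) :
    VV D f ≤ (Real.sqrt (400 * K) * EV D fun x => ‖fderiv ℝ f x‖) ^ 2 ∧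
      VV D f ≤ Real.sqrt (400 * K) * EV D fun x => ‖fderiv ℝ f x‖ := by
  have h1 := lv_body D hD hconv hvol hK hW f L M hf hfb
  have h2 := VV_le_one D hD hvol f hf hfb
  have hE0 : 0 ≤ EV D fun x => ‖fderiv ℝ f x‖ :=
    div_nonneg (integral_nonneg fun x => norm_nonneg _) ENNReal.toReal_nonneg
  set V := VV D f with hV
  set E := EV D fun x => ‖fderiv ℝ f x‖ with hE
  have hVp : 0 < V := lt_trans (by norm_num) h5
  have h3 : (Real.sqrt (400 * K) * E) ^ 2 = 400 * K * E ^ 2 := by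
    rw [mul_pow, Real.sq_sqrt (by positivity)]
  have h4 : V * (1 / 5) ^ 2 ≤ V ^ 3 := by
    have : (1 / 5 : ℝ) ^ 2 ≤ V ^ 2 := pow_le_pow_left₀ (by norm_num) h5.le 2
    nlinarith
  have h6 : V ≤ (Real.sqrt (400 * K) * E) ^ 2 := by
    rw [h3]
    nlinarith
  refine ⟨h6, ?_⟩
  have h7 : V ^ 2 ≤ (Real.sqrt (400 * K) * E) ^ 2 := by
    refine le_trans ?_ h6
    nlinarith
  exact (sq_le_sq₀ hVp.le (by positivity)).1 h7

theorem mu_eq (ρ : Eu κ → ℝ) : Pool.Agent.H212R2.KLS.mu ρ = mu ρ := rfl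

theorem aux_div {w w' Z Z' M : ℝ} (hw : w ≤ w') (hw' : 0 ≤ w') (hZ : 0 < Z) (hZ' : 0 < Z')
    (h : Z' ≤ 2 * M * Z) : w / Z ≤ 2 * M * (w' / Z') := by
  have h2 : 2 * M * (w' / Z') = (2 * M * w') / Z' := by ring
  rw [h2, div_le_div_iff₀ hZ hZ']
  calc w * Z' ≤ w' * Z' := mul_le_mul_of_nonneg_right hw hZ'.le
    _ ≤ w' * (2 * M * Z) := mul_le_mul_of_nonneg_left h hw'
    _ = 2 * M * w' * Z := by ring

theorem rh_le (D D' : Set (Eu κ)) (hD : IsCompact D) (hD' : IsCompact D') (hsub : D ⊆ D') (hvol : 0 < volume D)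
    {M : ℝ} (hM : 1 ≤ M) (hv : volume D' ≤ ENNReal.ofReal M * volume D) :
    ∀ᶠ A in atTop, ∀ x, rh D A x ≤ 2 * M * rh D' A x := by
  have hne : D.Nonempty := by
    by_contra h
    rw [not_nonempty_iff_eq_empty] at h
    rw [h] at hvol
    simp at hvol
  have hne' : D'.Nonempty := hne.mono hsub
  have hfin : volume D ≠ ⊤ := hD.measure_lt_top.ne
  have hfin' : volume D' ≠ ⊤ := hD'.measure_lt_top.ne
  have hvol' : 0 < volume D' := lt_of_lt_of_le hvol (measure_mono hsub)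
  have hv0 : 0 < (volume D).toReal := ENNReal.toReal_pos hvol.ne' hfin
  have hv0' : 0 < (volume D').toReal := ENNReal.toReal_pos hvol'.ne' hfin'
  have hM0 : 0 < M := by linarith
  have hvr : (volume D').toReal ≤ M * (volume D).toReal := by
    have := ENNReal.toReal_mono (ENNReal.mul_ne_top ENNReal.ofReal_ne_top hfin) hv
    rwa [ENNReal.toReal_mul, ENNReal.toReal_ofReal hM0.le] at this
  have ht := Pool.Agent.W12.KH.tend hD' hne' (g := fun _ => (1 : ℝ)) (B := 1) continuous_const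
    (fun x => by rw [abs_one, one_mul]; nlinarith [sq_nonneg ‖x‖])
  have hlim : ∫ x in D', (1 : ℝ) = (volume D').toReal := by
    rw [setIntegral_const, smul_eq_mul, mul_one, measureReal_def]
  rw [hlim] at ht
  have hev := ht.eventually (gt_mem_nhds (show (volume D').toReal < 2 * (volume D').toReal by linarith))
  filter_upwards [hev, eventually_gt_atTop 0] with A hA hA0
  intro x
  have hint := Pool.Agent.W12.KH.wt_int hD hne hA0 (g := fun _ => (1 : ℝ)) (B := 1) continuous_const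
    (fun x => by rw [abs_one, one_mul]; nlinarith [sq_nonneg ‖x‖])
  have hint' := Pool.Agent.W12.KH.wt_int hD' hne' hA0 (g := fun _ => (1 : ℝ)) (B := 1) continuous_const
    (fun x => by rw [abs_one, one_mul]; nlinarith [sq_nonneg ‖x‖])
  simp only [one_mul] at hA hint hint'
  set Z := ∫ y, Pool.Agent.W12.KH.wt D A y with hZ
  set Z' := ∫ y, Pool.Agent.W12.KH.wt D' A y with hZ'
  have hZD : (volume D).toReal ≤ Z := by
    have h1 : ∫ y in D, Pool.Agent.W12.KH.wt D A y = (volume D).toReal := by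
      have h2 : ∫ y in D, Pool.Agent.W12.KH.wt D A y = ∫ y in D, (1 : ℝ) := by
        refine setIntegral_congr_fun hD.measurableSet fun y hy => ?_
        show Pool.Agent.W12.KH.wt D A y = 1
        unfold Pool.Agent.W12.KH.wt
        rw [Metric.infDist_zero_of_mem hy]
        simp
      rw [h2, setIntegral_const, smul_eq_mul, mul_one, measureReal_def]
    rw [← h1]
    exact setIntegral_le_integral hint (Eventually.of_forall fun y => (Pool.Agent.W12.KH.wt_pos D A y).le)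
  have hZD' : (volume D').toReal ≤ Z' := by
    have h1 : ∫ y in D', Pool.Agent.W12.KH.wt D' A y = (volume D').toReal := by
      have h2 : ∫ y in D', Pool.Agent.W12.KH.wt D' A y = ∫ y in D', (1 : ℝ) := by
        refine setIntegral_congr_fun hD'.measurableSet fun y hy => ?_
        show Pool.Agent.W12.KH.wt D' A y = 1
        unfold Pool.Agent.W12.KH.wt
        rw [Metric.infDist_zero_of_mem hy]
        simp
      rw [h2, setIntegral_const, smul_eq_mul, mul_one, measureReal_def]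
    rw [← h1]
    exact setIntegral_le_integral hint' (Eventually.of_forall fun y => (Pool.Agent.W12.KH.wt_pos D' A y).le)
  have hZ0 : 0 < Z := lt_of_lt_of_le hv0 hZD
  have hZ0' : 0 < Z' := lt_of_lt_of_le hv0' hZD'
  have e : ∀ (E : Set (Eu κ)), 0 < (∫ y, Pool.Agent.W12.KH.wt E A y) →
      rh E A x = Pool.Agent.W12.KH.wt E A x / ∫ y, Pool.Agent.W12.KH.wt E A y := by
    intro E hE
    have h1 : Uu E A x = A / 2 * Metric.infDist x E ^ 2 + Real.log (∫ y, Pool.Agent.W12.KH.wt E A y) := rfl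
    unfold rh
    rw [h1, neg_add, Real.exp_add, Real.exp_neg (Real.log _), Real.exp_log hE]
    rfl
  rw [e D hZ0, e D' hZ0']
  have hw : Pool.Agent.W12.KH.wt D A x ≤ Pool.Agent.W12.KH.wt D' A x := by
    unfold Pool.Agent.W12.KH.wt
    apply Real.exp_le_exp.2
    have h1 : Metric.infDist x D' ≤ Metric.infDist x D := Metric.infDist_le_infDist_of_subset hsub hne
    have h2 : 0 ≤ Metric.infDist x D' := Metric.infDist_nonneg
    have h3 : Metric.infDist x D' ^ 2 ≤ Metric.infDist x D ^ 2 := pow_le_pow_left₀ h2 h1 2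
    nlinarith
  have hwp : 0 < Pool.Agent.W12.KH.wt D' A x := Pool.Agent.W12.KH.wt_pos D' A x
  have hZZ : Z' ≤ 2 * M * Z := by
    have h1 : (volume D').toReal ≤ M * Z := hvr.trans (mul_le_mul_of_nonneg_left hZD hM0.le)
    linarith
  exact aux_div hw hwp.le hZ0 hZ0' hZZ

theorem lv_of_dom (D D' : Set (Eu κ)) (hD : IsCompact D) (hD' : IsCompact D') (hc : Convex ℝ D)
    (hc' : Convex ℝ D') (hsub : D ⊆ D') (hvol : 0 < volume D) {M : ℝ} (hM : 1 ≤ M)
    (hv : volume D' ≤ ENNReal.ofReal M * volume D) {k : ℝ} (hk : 0 < k)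
    (hyp : ∀ A : ℝ, 0 < A → LC (rh D' A) → IsProbabilityMeasure (mu (rh D' A)) →
      (∀ e : Eu κ ≃ₗᵢ[ℝ] Eu κ, (∀ x, e x ∈ D' ↔ x ∈ D') → ∀ x, rh D' A (e x) = rh D' A x) →
      ∀ s : ℝ, 0 < s → CovLe (mu (rh D' A)) s → ∀ f : Eu κ → ℝ, ContDiff ℝ 1 f →
      (∀ x, ‖fderiv ℝ f x‖ ≤ 1) → MemLp f 2 (mu (rh D' A)) ∧ Var[f; mu (rh D' A)] ≤ k * s)
    {q : ℝ} (hq : 0 < q) (hcov : ∀ θ : Eu κ, EV D (fun x => ⟪θ, x⟫_ℝ ^ 2) ≤ q * ‖θ‖ ^ 2) :
    ∀ᶠ A in atTop, LV (Uu D A) (1824 * k * M ^ 3 * q) := by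
  have hne : D.Nonempty := by
    by_contra h
    rw [not_nonempty_iff_eq_empty] at h
    rw [h] at hvol
    simp at hvol
  have hne' : D'.Nonempty := hne.mono hsub
  have hevc := cov κ D hD hc hvol q q hq hcov
  filter_upwards [rh_le D D' hD hD' hsub hvol hM hv, hevc, eventually_gt_atTop 0] with A hA hAc hA0
  obtain ⟨-, h1, -⟩ := proj κ D hD hc hne A hA0
  obtain ⟨-, h1', hcvx'⟩ := proj κ D' hD' hc' hne' A hA0
  have hp : IsProbabilityMeasure (mu (rh D A)) := ⟨prob D hD hne A hA0 h1⟩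
  have hp' : IsProbabilityMeasure (mu (rh D' A)) := ⟨prob D' hD' hne' A hA0 h1'⟩
  have hLC : LC (rh D' A) := ⟨fun x => (rh_pos _ _ x).le, (rh_cont _ _).measurable, rh_logc _ A hcvx'⟩
  have hM0 : 0 < M := by linarith
  have hdom : Dom (mu (rh D A)) (mu (rh D' A)) (2 * M) := by
    intro S hS
    unfold mu
    rw [withDensity_apply _ hS, withDensity_apply _ hS,
      ← lintegral_const_mul _ (rh_cont D' A).measurable.ennreal_ofReal]
    refine lintegral_mono fun x => ?_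
    rw [← ENNReal.ofReal_mul (by positivity)]
    exact ENNReal.ofReal_le_ofReal (hA x)
  have hiso : ∀ e : Eu κ ≃ₗᵢ[ℝ] Eu κ, (∀ x, e x ∈ D' ↔ x ∈ D') → ∀ x, rh D' A (e x) = rh D' A x := by
    intro e he x
    have h5 := Uu_iso e D' he 1 A x
    rw [one_smul, hD'.isClosed.closure_eq] at h5
    unfold rh
    rw [h5]
  have hcovν : CovLe (mu (rh D A)) (2 * q) := by
    intro θ
    refine Pool.Agent.W695.KH.evar_le (mu (rh D A)) _ (by fun_prop) _ ?_
    rw [← mu_eq, lint_mu D hD hne A hA0 (fun x => ⟪θ, x⟫_ℝ ^ 2) (by fun_prop)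
      (fun x => sq_nonneg _) (‖θ‖ ^ 2) (fun x => by
        rw [abs_of_nonneg (sq_nonneg _), ← sq_abs]
        have h2 := abs_real_inner_le_norm θ x
        have h3 : |⟪θ, x⟫_ℝ| ^ 2 ≤ (‖θ‖ * ‖x‖) ^ 2 := pow_le_pow_left₀ (abs_nonneg _) h2 2
        nlinarith [sq_nonneg ‖θ‖, mul_pow ‖θ‖ ‖x‖ 2])]
    exact ENNReal.ofReal_le_ofReal ((hAc θ).trans (le_of_eq (by ring)))
  intro v G hG hvd hvb hvG
  have hfd : ∀ x, fderiv ℝ (fun y => G⁻¹ * v y) x = G⁻¹ • fderiv ℝ v x := by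
    intro x
    exact fderiv_const_mul ((hvd.differentiable one_ne_zero) x) G⁻¹
  have hft := transfer hLC hp' (κ := k) (fun s hs hcs f hf hf1 => hyp A hA0 hLC hp' hiso s hs hcs f hf hf1)
    (mu (rh D A)) (M := 2 * M) (by linarith) hdom (s := 2 * q) (by positivity) hcovν
    (f := fun y => G⁻¹ * v y) (contDiff_const.mul hvd) (fun x => by
      rw [hfd, norm_smul, norm_inv, Real.norm_of_nonneg hG.le, inv_mul_le_iff₀ hG, mul_one]
      exact hvG x)
  have h6 := hft.2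
  rw [variance_const_mul] at h6
  have h7 : Var[v; mu (rh D A)] = EU (Uu D A) (fun x => v x ^ 2) - EU (Uu D A) v ^ 2 := by
    rw [variance_eq_integral hvd.continuous.measurable.aemeasurable]
    exact var_mu D hD hne A hA0 h1 v hvd.continuous hvb
  rw [h7] at h6
  have h8 : G⁻¹ ^ 2 * (EU (Uu D A) (fun x => v x ^ 2) - EU (Uu D A) v ^ 2) * G ^ 2 =
      EU (Uu D A) (fun x => v x ^ 2) - EU (Uu D A) v ^ 2 := by
    field_simp
  calc EU (Uu D A) (fun x => v x ^ 2) - EU (Uu D A) v ^ 2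
      = G⁻¹ ^ 2 * (EU (Uu D A) (fun x => v x ^ 2) - EU (Uu D A) v ^ 2) * G ^ 2 := h8.symm
    _ ≤ 114 * k * (2 * M) ^ 3 * (2 * q) * G ^ 2 := mul_le_mul_of_nonneg_right h6 (sq_nonneg _)
    _ = 1824 * k * M ^ 3 * q * G ^ 2 := by ring

end Pool.Agent.V11298.KD
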