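import Pool.Agent.V11298.KD.Body
import Pool.Agent.W695.KH.Per

/-!
# From the functional inequality to sets of measure one half and to hyperplane sections
-/

set_option autoImplicit false

namespace Pool.Agent.V11298.KD

open MeasureTheory Set Filter Topology
open scoped ENNReal InnerProductSpace Pointwise
open Pool.Agent.W695.KH

theorem cheeger_of_fun : ∃ c : ℝ, 0 < c ∧ ∀ (κ : Type) [Fintype κ] [Nonempty κ] (D : Set (Eu κ)),
    Convex ℝ D → IsCompact D → (interior D).Nonempty → (∀ x ∈ D, -x ∈ D) →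
    ∀ k : ℝ, 0 < k →
    (∀ q : ℝ, 0 < q → (∀ θ : Eu κ, EV D (fun x => ⟪θ, x⟫_ℝ ^ 2) ≤ q * ‖θ‖ ^ 2) →
      ∀ (f : Eu κ → ℝ) (L M : ℝ), Sm f L M → (∀ x, |f x| ≤ 1 / 2) → 1 / 5 < VV D f →
      VV D f ≤ Real.sqrt (k * q) * EV D fun x => ‖fderiv ℝ f x‖) →
    ∀ μ : Measure (Eu κ), μ = (volume D)⁻¹ • volume.restrict D →
    ∀ t : ℝ≥0∞,
      (∀ (u : Eu κ) (b : ℝ), u ≠ 0 →
        t * min (μ {x : Eu κ | inner ℝ u x ≤ b}) (1 - μ {x : Eu κ | inner ℝ u x ≤ b}) ≤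
          liminf (fun ε : ℝ => (μ (Metric.thickening ε {x : Eu κ | inner ℝ u x ≤ b})
            - μ {x : Eu κ | inner ℝ u x ≤ b}) / ENNReal.ofReal ε) (𝓝[>] 0)) →
      ∀ S : Set (Eu κ), μ S = 1 / 2 →
        ENNReal.ofReal (c / Real.sqrt k) * t * min (μ S) (1 - μ S) ≤
          liminf (fun ε : ℝ => (μ (Metric.thickening ε S) - μ S) / ENNReal.ofReal ε) (𝓝[>] 0) := by
  obtain ⟨C, hC, hhalf⟩ := half
  refine ⟨1 / (2 * Real.sqrt C), by positivity, ?_⟩
  intro κ _ _ D hco hcp hint hsym k hk hyp μ hμ t ht S hS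
  have hcl : IsClosed D := hcp.isClosed
  have hDne : D.Nonempty := hint.mono interior_subset
  have hvol : 0 < volume D :=
    lt_of_lt_of_le (isOpen_interior.measure_pos volume hint) (measure_mono interior_subset)
  have hfin : volume D ≠ ⊤ := hcp.measure_lt_top.ne
  have hvr : 0 < (volume D).toReal := ENNReal.toReal_pos hvol.ne' hfin
  -- the quadratic form
  have hcvi : Convex ℝ (interior D) := hco.interior
  have hopi : IsOpen (interior D) := isOpen_interior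
  have hbdi : Bornology.IsBounded (interior D) := hcp.isBounded.subset interior_subset
  have h0i : (0 : Eu κ) ∈ interior D := by
    obtain ⟨x, hx⟩ := hint
    have hnx : -x ∈ interior D := by
      have h1 : -(interior D) = interior (-D) := by
        have := (Homeomorph.neg (Eu κ)).image_interior D
        simpa using this
      have h2 : -D = D := by
        ext y
        constructor
        · intro hy
          have := hsym (-y) hy
          simpa using this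
        · intro hy
          exact hsym y hy
      have h3 : -x ∈ -(interior D) := by simpa using hx
      rw [h1, h2] at h3
      exact h3
    have h1 := hcvi hx hnx (by norm_num : (0 : ℝ) ≤ 1 / 2)
      (by norm_num : (0 : ℝ) ≤ 1 / 2) (by norm_num)
    simpa using h1
  have hae : (D : Set (Eu κ)) =ᵐ[volume] interior D := by
    have h1 := Pool.Agent.W932.KH.closure_ae hopi hcvi
    rwa [hco.closure_interior_eq_closure_of_nonempty_interior hint, hcl.closure_eq] at h1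
  have hEV : ∀ g : Eu κ → ℝ, EV D g = EV (interior D) g := by
    intro g
    unfold EV
    rw [setIntegral_congr_set hae, measure_congr hae]
  obtain ⟨a, ha1, hamax'⟩ := Pool.Agent.W932.KH.q_max hopi hbdi
  obtain ⟨qa, hqa'⟩ : ∃ qa : ℝ, qa = EV D (fun x => ⟪a, x⟫_ℝ ^ 2) := ⟨_, rfl⟩
  have hamax : ∀ θ : Eu κ, EV D (fun x => ⟪θ, x⟫_ℝ ^ 2) ≤ qa * ‖θ‖ ^ 2 := by
    intro θ
    rw [hqa', hEV, hEV]
    exact hamax' θ
  have hqa : 0 < qa := by
    rw [hqa', hEV]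
    exact Pool.Agent.W932.KH.q_pos hopi hbdi h0i a ha1
  obtain ⟨B, hB⟩ : ∃ B : ℝ, B = Real.sqrt (k * qa) := ⟨_, rfl⟩
  have hB0 : 0 < B := by rw [hB]; positivity
  -- the inequality for functions
  have hfun : ∀ (f : Eu κ → ℝ) (L M : ℝ), Sm f L M → (∀ x, |f x| ≤ 1 / 2) → 1 / 5 < VV D f →
      VV D f ≤ B * EV D fun x => ‖fderiv ℝ f x‖ := by
    intro f L M hf hf2 hV5
    rw [hB]
    exact hyp qa hqa hamax f L M hf hf2 hV5
  have h1 := mink2 D hcp hvol B hB0 hfun μ hμ S hS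
  have h2 : t ^ 2 * ENNReal.ofReal qa ≤ ENNReal.ofReal C := by
    rw [hqa']
    exact hhalf κ D hcp hco hint hsym μ hμ a t ha1 (ht a 0 (by
      intro h0
      rw [h0, norm_zero] at ha1
      exact zero_ne_one ha1))
  obtain ⟨Λ, hΛ⟩ : ∃ Λ : ℝ≥0∞, Λ = liminf (fun ε : ℝ =>
    (μ (Metric.thickening ε S) - μ S) / ENNReal.ofReal ε) (𝓝[>] 0) := ⟨_, rfl⟩
  rw [← hΛ] at h1 ⊢
  have htt : t ≠ ⊤ := by
    intro h
    rw [h, ENNReal.top_pow (by norm_num), ENNReal.top_mul (by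
      rw [Ne, ENNReal.ofReal_eq_zero, not_le]; exact hqa)] at h2
    exact ENNReal.ofReal_ne_top (top_le_iff.1 h2)
  have ht' : t ≤ ENNReal.ofReal (Real.sqrt (C / qa)) := by
    rw [ENNReal.le_ofReal_iff_toReal_le htt (Real.sqrt_nonneg _)]
    refine Real.le_sqrt_of_sq_le ?_
    rw [le_div_iff₀ hqa]
    have h3 := ENNReal.toReal_mono ENNReal.ofReal_ne_top h2
    rw [ENNReal.toReal_mul, ENNReal.toReal_pow, ENNReal.toReal_ofReal hqa.le,
      ENNReal.toReal_ofReal hC.le] at h3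
    exact h3
  have hμ1 : μ S ≤ 1 := by
    rw [hμ]
    have h3 : ((volume D)⁻¹ • volume.restrict D) S = (volume D)⁻¹ * volume.restrict D S := rfl
    rw [h3]
    calc (volume D)⁻¹ * volume.restrict D S ≤ (volume D)⁻¹ * volume D := by
          refine mul_le_mul_right ?_ _
          calc volume.restrict D S ≤ volume.restrict D univ := measure_mono (subset_univ _)
            _ = volume D := by rw [Measure.restrict_apply_univ]
      _ = 1 := ENNReal.inv_mul_cancel hvol.ne' hfin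
  have hmin : min (μ S) (1 - μ S) ≤ 2 * (μ S * (1 - μ S)) := by
    have hf1 : μ S ≠ ⊤ := ne_top_of_le_ne_top ENNReal.one_ne_top hμ1
    obtain ⟨p, hp0, hp⟩ : ∃ p : ℝ, 0 ≤ p ∧ μ S = ENNReal.ofReal p :=
      ⟨(μ S).toReal, ENNReal.toReal_nonneg, (ENNReal.ofReal_toReal hf1).symm⟩
    have hp1 : p ≤ 1 := by
      rw [hp] at hμ1
      rwa [← ENNReal.ofReal_one, ENNReal.ofReal_le_ofReal_iff (by norm_num)] at hμ1
    have h3 : (1 : ℝ≥0∞) - μ S = ENNReal.ofReal (1 - p) := by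
      rw [hp, ENNReal.ofReal_sub _ hp0, ENNReal.ofReal_one]
    rw [h3, hp, ← ENNReal.ofReal_min, ← ENNReal.ofReal_mul hp0]
    have h4 : (2 : ℝ≥0∞) = ENNReal.ofReal 2 := by norm_num
    rw [h4, ← ENNReal.ofReal_mul (by norm_num)]
    refine ENNReal.ofReal_le_ofReal ?_
    rcases le_total p (1 - p) with h | h
    · rw [min_eq_left h]
      nlinarith
    · rw [min_eq_right h]
      nlinarith
  calc ENNReal.ofReal (1 / (2 * Real.sqrt C) / Real.sqrt k) * t * min (μ S) (1 - μ S)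
      ≤ ENNReal.ofReal (1 / (2 * Real.sqrt C) / Real.sqrt k) *
        ENNReal.ofReal (Real.sqrt (C / qa)) * (2 * (ENNReal.ofReal B * Λ)) := by
        gcongr
        exact hmin.trans (mul_le_mul_right h1 _)
    _ = ENNReal.ofReal (1 / (2 * Real.sqrt C) / Real.sqrt k * Real.sqrt (C / qa) *
          (2 * B)) * Λ := by
        have h4 : (2 : ℝ≥0∞) = ENNReal.ofReal 2 := by norm_num
        rw [h4, ENNReal.ofReal_mul (by positivity), ENNReal.ofReal_mul (by positivity),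
          ENNReal.ofReal_mul (by norm_num)]
        ring
    _ = Λ := by
        have h5 : 1 / (2 * Real.sqrt C) / Real.sqrt k * Real.sqrt (C / qa) * (2 * B) =
            1 := by
          rw [hB, Real.sqrt_mul hk.le, Real.sqrt_div hC.le]
          have : Real.sqrt k ≠ 0 := (Real.sqrt_pos.2 hk).ne'
          have : Real.sqrt C ≠ 0 := (Real.sqrt_pos.2 hC).ne'
          have : Real.sqrt qa ≠ 0 := (Real.sqrt_pos.2 hqa).ne'
          field_simp
        rw [h5, ENNReal.ofReal_one, one_mul]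

theorem main_of_fun : ∃ C : ℝ, 0 < C ∧ ∀ (κ : Type) [Fintype κ] [Nonempty κ] (Ω : Set (Eu κ)),
    IsOpen Ω → Convex ℝ Ω → Bornology.IsBounded Ω → (0 : Eu κ) ∈ Ω → (∀ x ∈ Ω, -x ∈ Ω) →
    ∀ k : ℝ, 0 < k →
    (∀ r : ℝ, 0 < r → r < 1 → ∀ q : ℝ, 0 < q →
      (∀ θ : Eu κ, EV (r • closure Ω) (fun x => ⟪θ, x⟫_ℝ ^ 2) ≤ q * ‖θ‖ ^ 2) →
      ∀ (f : Eu κ → ℝ) (L M : ℝ), Sm f L M → (∀ x, |f x| ≤ 1 / 2) → 1 / 5 < VV (r • closure Ω) f →
      VV (r • closure Ω) f ≤ (Real.sqrt (k * q) * EV (r • closure Ω) fun x => ‖fderiv ℝ f x‖) ^ 2) →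
    ∃ a : Eu κ, a ≠ 0 ∧ ∀ E : Set (Eu κ), MeasurableSet E → E ⊆ Ω → volume E = volume Ω / 2 →
      ∀ P : ℝ, PerLe Ω E P → sec Ω a ≤ ENNReal.ofReal (C * Real.sqrt k * P) := by
  obtain ⟨Cs, hCs, hs⟩ := sec_bound
  refine ⟨3 * Real.sqrt Cs, by positivity, ?_⟩
  intro κ _ _ Ω ho hconv hbd h0 hsym k hk H
  obtain ⟨a, ha, hmax⟩ := Pool.Agent.W932.KH.q_max (Ω := Ω) ho hbd
  set s := EV Ω (fun x => ⟪a, x⟫_ℝ ^ 2) with hsdef
  have hspos : 0 < s := Pool.Agent.W932.KH.q_pos ho hbd h0 a ha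
  have hfin : volume Ω < ⊤ := hbd.measure_lt_top
  have hvol : 0 < (volume Ω).toReal :=
    ENNReal.toReal_pos (ho.measure_pos volume ⟨0, h0⟩).ne' hfin.ne
  refine ⟨a, ?_, ?_⟩
  · rintro rfl
    rw [norm_zero] at ha
    exact zero_ne_one ha
  intro E hE hEΩ hEvol P hP
  have key : (volume Ω).toReal ≤ 3 * Real.sqrt (k * s) * P := by
    refine perim κ Ω ho hconv hbd h0 E hE hEΩ hEvol P hP (Real.sqrt (k * s)) (by positivity) ?_
    intro r hr0 hr1 f L M hf hf12 hV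
    have hDcov : ∀ θ : Eu κ, EV (r • closure Ω) (fun x => ⟪θ, x⟫_ℝ ^ 2) ≤ s * ‖θ‖ ^ 2 := by
      intro θ
      rw [Pool.Agent.W932.KH.EV_scale ho hconv r hr0]
      have h1 : (fun x : Eu κ => ⟪θ, r • x⟫_ℝ ^ 2) = fun x => ⟪r • θ, x⟫_ℝ ^ 2 := by
        funext x
        rw [real_inner_smul_right, real_inner_smul_left]
      rw [h1]
      refine (hmax (r • θ)).trans ?_
      rw [norm_smul, Real.norm_eq_abs, abs_of_pos hr0, mul_pow]
      have h2 : r ^ 2 ≤ 1 := pow_le_one₀ hr0.le hr1.le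
      have h3 : r ^ 2 * ‖θ‖ ^ 2 ≤ 1 * ‖θ‖ ^ 2 := mul_le_mul_of_nonneg_right h2 (sq_nonneg _)
      rw [one_mul] at h3
      exact mul_le_mul_of_nonneg_left h3 hspos.le
    exact H r hr0 hr1 s hspos hDcov f L M hf hf12 hV
  have hsq : (volume Ω).toReal ^ 2 ≤ 3 ^ 2 * k * s * P ^ 2 := by
    have h2 := pow_le_pow_left₀ hvol.le key 2
    refine h2.trans (le_of_eq ?_)
    rw [mul_pow, mul_pow, Real.sq_sqrt (by positivity)]
    ring
  have hPpos : 0 < P := by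
    by_contra hcon
    push Not at hcon
    have h2 : 0 < 3 * Real.sqrt (k * s) := by positivity
    have : 3 * Real.sqrt (k * s) * P ≤ 0 := mul_nonpos_of_nonneg_of_nonpos h2.le hcon
    linarith
  obtain ⟨hsec1, hsec2, -⟩ := hs κ Ω ho hconv hbd h0 hsym a ha
  have h3 : (sec Ω a).toReal ^ 2 ≤ (3 * Real.sqrt Cs * Real.sqrt k * P) ^ 2 := by
    have h4 : (sec Ω a).toReal ^ 2 * s ≤ Cs * (3 ^ 2 * k * s * P ^ 2) :=
      hsec2.trans (mul_le_mul_of_nonneg_left hsq hCs.le)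
    have h5 : (3 * Real.sqrt Cs * Real.sqrt k * P) ^ 2 = 3 ^ 2 * Cs * k * P ^ 2 := by
      rw [mul_pow, mul_pow, mul_pow, Real.sq_sqrt hCs.le, Real.sq_sqrt hk.le]
    rw [h5]
    have h6 : (sec Ω a).toReal ^ 2 * s ≤ (3 ^ 2 * Cs * k * P ^ 2) * s := by
      refine h4.trans (le_of_eq ?_)
      ring
    exact le_of_mul_le_mul_right h6 hspos
  have h7 : (sec Ω a).toReal ≤ 3 * Real.sqrt Cs * Real.sqrt k * P :=
    le_of_sq_le_sq h3 (by positivity)
  rw [← ENNReal.ofReal_toReal hsec1]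
  exact ENNReal.ofReal_le_ofReal h7


/-- `main_of_fun` for the perimeter as an extended number -/
theorem final_of_fun : ∃ C : ℝ, 0 < C ∧ ∀ (κ : Type) [Fintype κ] [Nonempty κ] (Ω : Set (Eu κ)),
    IsOpen Ω → Convex ℝ Ω → Bornology.IsBounded Ω → (0 : Eu κ) ∈ Ω → (∀ x ∈ Ω, -x ∈ Ω) →
    ∀ k : ℝ, 0 < k →
    (∀ r : ℝ, 0 < r → r < 1 → ∀ q : ℝ, 0 < q →
      (∀ θ : Eu κ, EV (r • closure Ω) (fun x => ⟪θ, x⟫_ℝ ^ 2) ≤ q * ‖θ‖ ^ 2) →
      ∀ (f : Eu κ → ℝ) (L M : ℝ), Sm f L M → (∀ x, |f x| ≤ 1 / 2) → 1 / 5 < VV (r • closure Ω) f →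
      VV (r • closure Ω) f ≤ (Real.sqrt (k * q) * EV (r • closure Ω) fun x => ‖fderiv ℝ f x‖) ^ 2) →
    ∃ a : Eu κ, a ≠ 0 ∧ ∀ E : Set (Eu κ), MeasurableSet E → E ⊆ Ω → volume E = volume Ω / 2 →
      sec Ω a ≤ ENNReal.ofReal (C * Real.sqrt k) * per E Ω := by
  obtain ⟨C, hC, h⟩ := main_of_fun
  refine ⟨C, hC, ?_⟩
  intro κ _ _ Ω hop hco hbd h0 hsym k hk hyp
  obtain ⟨a, ha, H⟩ := h κ Ω hop hco hbd h0 hsym k hk hyp
  refine ⟨a, ha, fun E hE hEΩ hvol => ?_⟩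
  by_cases hp : per E Ω = ⊤
  · rw [hp, ENNReal.mul_top]
    · exact le_top
    · rw [Ne, ENNReal.ofReal_eq_zero, not_le]
      positivity
  · refine (H E hE hEΩ hvol _ (perLe_toReal E Ω hp)).trans (le_of_eq ?_)
    rw [ENNReal.ofReal_mul (by positivity), ENNReal.ofReal_toReal hp]

end Pool.Agent.V11298.KD
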