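import Pool.Agent.V11298.KD.Chee

/-!
# Large symmetric convex subsets of convex bodies with many symmetries
-/

set_option autoImplicit false

namespace Pool.Agent.V11298.KD

open MeasureTheory Set Filter Topology ProbabilityTheory
open scoped ENNReal InnerProductSpace Pointwise
open Pool.Agent.W695.KH

/-- Every `C¹` function with `‖∇ f‖ ≤ 1` is in `L²(ν)` and has variance at most `k s`, for every `s > 0` such that
the covariance matrix of `ν` has norm at most `s`. -/
def VarKLS {κ : Type} [Fintype κ] (ν : Measure (Eu κ)) (k : ℝ) : Prop :=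
  ∀ s : ℝ, 0 < s → CovLe ν s → ∀ f : Eu κ → ℝ, ContDiff ℝ 1 f → (∀ x, ‖fderiv ℝ f x‖ ≤ 1) →
    MemLp f 2 ν ∧ variance f ν ≤ k * s

/-- every log-concave probability density which is invariant under all linear isometries preserving `D'` satisfies
`VarKLS` with the constant `k` -/
def SymKLS {κ : Type} [Fintype κ] (D' : Set (Eu κ)) (k : ℝ) : Prop :=
  ∀ ρ : Eu κ → ℝ, LC ρ → IsProbabilityMeasure (mu ρ) →
    (∀ e : Eu κ ≃ₗᵢ[ℝ] Eu κ, (∀ x, e x ∈ D' ↔ x ∈ D') → ∀ x, ρ (e x) = ρ x) → VarKLS (mu ρ) k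

theorem cheeger_sym : ∃ c : ℝ, 0 < c ∧ ∀ (κ : Type) [Fintype κ] [Nonempty κ] (D D' : Set (Eu κ)),
    Convex ℝ D → IsCompact D → (interior D).Nonempty → (∀ x ∈ D, -x ∈ D) →
    Convex ℝ D' → IsCompact D' → D ⊆ D' → ∀ M : ℝ, 1 ≤ M → volume D' ≤ ENNReal.ofReal M * volume D →
    ∀ k : ℝ, 0 < k → SymKLS D' k →
    ∀ μ : Measure (Eu κ), μ = (volume D)⁻¹ • volume.restrict D →
    ∀ t : ℝ≥0∞,
      (∀ (u : Eu κ) (b : ℝ), u ≠ 0 →
        t * min (μ {x : Eu κ | inner ℝ u x ≤ b}) (1 - μ {x : Eu κ | inner ℝ u x ≤ b}) ≤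
          liminf (fun ε : ℝ => (μ (Metric.thickening ε {x : Eu κ | inner ℝ u x ≤ b})
            - μ {x : Eu κ | inner ℝ u x ≤ b}) / ENNReal.ofReal ε) (𝓝[>] 0)) →
      ∀ S : Set (Eu κ), μ S = 1 / 2 →
        ENNReal.ofReal (c / Real.sqrt (k * M ^ 3)) * t * min (μ S) (1 - μ S) ≤
          liminf (fun ε : ℝ => (μ (Metric.thickening ε S) - μ S) / ENNReal.ofReal ε) (𝓝[>] 0) := by
  obtain ⟨c, hc, H⟩ := cheeger_of_fun
  refine ⟨c / Real.sqrt 729600, by positivity, ?_⟩
  intro κ _ _ D D' hco hcp hint hsym hco' hcp' hsub M hM hv k hk hS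
  have hvol : 0 < volume D :=
    lt_of_lt_of_le (isOpen_interior.measure_pos volume hint) (measure_mono interior_subset)
  have hM0 : 0 < M := by linarith
  have key := H κ D hco hcp hint hsym (729600 * (k * M ^ 3)) (by positivity) (by
    intro q hq hcov f L N hf hf2 h5
    have hW := lv_of_dom D D' hcp hcp' hco hco' hsub hvol hM hv hk
      (fun A _ hLC hp hiso s hs hcs f hf hf1 => hS (rh D' A) hLC hp hiso s hs hcs f hf hf1) hq hcov
    have h1 := (fun_bound D hcp hco hvol (K := 1824 * k * M ^ 3 * q) (by positivity) hW f L N hf hf2 h5).2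
    have e : 400 * (1824 * k * M ^ 3 * q) = 729600 * (k * M ^ 3) * q := by ring
    rw [e] at h1
    exact h1)
  have e : c / Real.sqrt (729600 * (k * M ^ 3)) = c / Real.sqrt 729600 / Real.sqrt (k * M ^ 3) := by
    rw [Real.sqrt_mul (by norm_num), div_div]
  rw [e] at key
  exact key

theorem hyp_sym : ∃ C : ℝ, 0 < C ∧ ∀ (κ : Type) [Fintype κ] [Nonempty κ] (Ω Ω' : Set (Eu κ)),
    IsOpen Ω → Convex ℝ Ω → Bornology.IsBounded Ω → (0 : Eu κ) ∈ Ω → (∀ x ∈ Ω, -x ∈ Ω) →
    Convex ℝ Ω' → Bornology.IsBounded Ω' → Ω ⊆ Ω' → ∀ M : ℝ, 1 ≤ M →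
    volume Ω' ≤ ENNReal.ofReal M * volume Ω → ∀ k : ℝ, 0 < k → SymKLS Ω' k →
    ∃ a : Eu κ, a ≠ 0 ∧ ∀ E : Set (Eu κ), MeasurableSet E → E ⊆ Ω → volume E = volume Ω / 2 →
      sec Ω a ≤ ENNReal.ofReal (C * Real.sqrt (k * M ^ 3)) * per E Ω := by
  obtain ⟨C, hC, H⟩ := final_of_fun
  refine ⟨C * Real.sqrt 729600, by positivity, ?_⟩
  intro κ _ _ Ω Ω' hop hco hbd h0 hsym hco' hbd' hsub M hM hv k hk hS
  have hM0 : 0 < M := by linarith
  have key := H κ Ω hop hco hbd h0 hsym (729600 * (k * M ^ 3)) (by positivity) (by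
    intro r hr0 hr1 q hq hcov f L N hf hf2 h5
    have hDc : IsCompact (r • closure Ω) :=
      (Metric.isCompact_of_isClosed_isBounded isClosed_closure hbd.closure).smul r
    have hDc' : IsCompact (r • closure Ω') :=
      (Metric.isCompact_of_isClosed_isBounded isClosed_closure hbd'.closure).smul r
    have hrp : 0 < ENNReal.ofReal |r ^ Module.finrank ℝ (Eu κ)| := by
      rw [abs_of_pos (pow_pos hr0 _)]
      exact ENNReal.ofReal_pos.mpr (pow_pos hr0 _)
    have hDvol : 0 < volume (r • closure Ω) := by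
      rw [Measure.addHaar_smul]
      refine ENNReal.mul_pos hrp.ne' ?_
      exact (lt_of_lt_of_le (hop.measure_pos volume ⟨0, h0⟩) (measure_mono subset_closure)).ne'
    have hcl' : volume (closure Ω') ≤ volume Ω' := by
      rw [closure_eq_self_union_frontier]
      refine (measure_union_le _ _).trans ?_
      rw [hco'.addHaar_frontier volume, add_zero]
    have hDv : volume (r • closure Ω') ≤ ENNReal.ofReal M * volume (r • closure Ω) := by
      rw [Measure.addHaar_smul, Measure.addHaar_smul]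
      calc ENNReal.ofReal |r ^ Module.finrank ℝ (Eu κ)| * volume (closure Ω')
          ≤ ENNReal.ofReal |r ^ Module.finrank ℝ (Eu κ)| * (ENNReal.ofReal M * volume (closure Ω)) := by
            refine mul_le_mul_right ?_ _
            exact hcl'.trans (hv.trans (mul_le_mul_right (measure_mono subset_closure) _))
        _ = _ := by ring
    have hW := lv_of_dom (r • closure Ω) (r • closure Ω') hDc hDc' (hco.closure.smul r) (hco'.closure.smul r)
      (smul_set_mono (closure_mono hsub)) hDvol hM hDv hk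
      (fun A _ hLC hp _ s hs hcs f hf hf1 => hS (rh (r • closure Ω') A) hLC hp
        (fun e he x => by unfold rh; rw [Uu_iso e Ω' he]) s hs hcs f hf hf1) hq hcov
    have h1 := (fun_bound (r • closure Ω) hDc (hco.closure.smul r) hDvol (K := 1824 * k * M ^ 3 * q)
      (by positivity) hW f L N hf hf2 h5).1
    have e : 400 * (1824 * k * M ^ 3 * q) = 729600 * (k * M ^ 3) * q := by ring
    rw [e] at h1
    exact h1)
  have e : C * Real.sqrt (729600 * (k * M ^ 3)) = C * Real.sqrt 729600 * Real.sqrt (k * M ^ 3) := by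
    rw [Real.sqrt_mul (by norm_num), mul_assoc]
  rw [e] at key
  exact key

end Pool.Agent.V11298.KD
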